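import Pool.Agent.Helper58.PB.StS

set_option autoImplicit false

namespace Pool.Agent.Helper39.PB

open Finset
open Pool.Agent.Helper58.PB
open Pool.Agent.Helper48.BK (ex nd gs)

private theorem norm_ex_KER (t : ℝ) : ‖ex t‖ = 1 := by
  unfold ex
  have : (2 * Real.pi * t * Complex.I : ℂ) = ((2 * Real.pi * t : ℝ) : ℂ) * Complex.I := by push_cast; ring
  rw [this, Complex.norm_exp_ofReal_mul_I]

private theorem norm_ex_sub_one_KER (t : ℝ) : ‖ex t - 1‖ ≤ 2 * Real.pi * |t| := by
  unfold ex
  have h1 : (2 * Real.pi * t * Complex.I : ℂ) = Complex.I * ((2 * Real.pi * t : ℝ) : ℂ) := by push_cast; ring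
  rw [h1]
  refine (Real.norm_exp_I_mul_ofReal_sub_one_le).trans ?_
  rw [Real.norm_eq_abs, abs_mul, abs_of_pos (by positivity : (0:ℝ) < 2 * Real.pi)]

private theorem ex_add_KER (s t : ℝ) : ex (s + t) = ex s * ex t := by
  unfold ex
  rw [← Complex.exp_add]; congr 1; push_cast; ring

/-- KER -/
theorem hKer : Pool.Agent.Helper48.BK.StGeo1 → StKer := by
  intro hG L β hL
  have hL0 : (0 : ℝ) < L := by exact_mod_cast hL
  have hnL : ‖(1 / (L : ℂ))‖ = 1 / (L : ℝ) := by
    rw [norm_div, norm_one, Complex.norm_natCast]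
  refine ⟨?_, ?_, ?_⟩
  · unfold kk
    rw [norm_mul, hnL]
    have : ‖∑ j ∈ range L, ex (j * β)‖ ≤ L := by
      refine (norm_sum_le _ _).trans ?_
      simp [norm_ex_KER]
    calc 1 / (L : ℝ) * ‖∑ j ∈ range L, ex (j * β)‖ ≤ 1 / (L : ℝ) * L := by
          apply mul_le_mul_of_nonneg_left this (by positivity)
      _ = 1 := by field_simp
  · intro hnd
    unfold kk
    rw [norm_mul, hnL]
    have h1 := hG.1 0 L β
    have h2 : ∑ n ∈ Ioc 0 (0 + L), ex (n * β) = ex β * ∑ j ∈ range L, ex (j * β) := by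
      rw [mul_sum]
      refine sum_bij' (fun n _ => n - 1) (fun j _ => j + 1) ?_ ?_ ?_ ?_ ?_
      · intro a ha; simp only [mem_Ioc, zero_add, mem_range] at ha ⊢; omega
      · intro a ha; simp only [mem_Ioc, zero_add, mem_range] at ha ⊢; omega
      · intro a ha; simp only [mem_Ioc, zero_add] at ha ⊢; omega
      · intro a ha; simp
      · intro a ha
        simp only [mem_Ioc, zero_add] at ha
        obtain ⟨m, rfl⟩ : ∃ m, a = m + 1 := ⟨a - 1, by omega⟩
        rw [← ex_add_KER]
        congr 1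
        push_cast [Nat.add_sub_cancel]
        ring
    rw [h2, norm_mul, norm_ex_KER, one_mul] at h1
    have h3 : gs L β ≤ 1 / nd β := by
      unfold gs
      split_ifs with h
      · rw [le_div_iff₀ hnd]; exact h
      · exact le_rfl
    calc 1 / (L : ℝ) * ‖∑ j ∈ range L, ex (j * β)‖ ≤ 1 / (L : ℝ) * (1 / nd β) := by
          apply mul_le_mul_of_nonneg_left (h1.trans h3) (by positivity)
      _ = 1 / (L * nd β) := by field_simp
  · have h1 : kk L β - 1 = (1 / (L : ℂ)) * ∑ j ∈ range L, (ex (j * β) - 1) := by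
      unfold kk
      rw [sum_sub_distrib, mul_sub]
      congr 1
      simp
      have : (L : ℂ) ≠ 0 := by exact_mod_cast (by omega : L ≠ 0)
      field_simp
    rw [h1, norm_mul, hnL]
    have h2 : ‖∑ j ∈ range L, (ex (j * β) - 1)‖ ≤ L * (2 * Real.pi * L * |β|) := by
      refine (norm_sum_le _ _).trans ?_
      have : ∀ j ∈ range L, ‖ex (j * β) - 1‖ ≤ 2 * Real.pi * L * |β| := by
        intro j hj
        rw [mem_range] at hj
        refine (norm_ex_sub_one_KER _).trans ?_
        rw [abs_mul, abs_of_nonneg (Nat.cast_nonneg j)]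
        have : (j : ℝ) ≤ L := by exact_mod_cast hj.le
        have h5 : 0 ≤ |β| := abs_nonneg β
        have h6 : (j : ℝ) * |β| ≤ L * |β| := mul_le_mul_of_nonneg_right this h5
        have h7 := mul_le_mul_of_nonneg_left h6 (by positivity : (0:ℝ) ≤ 2 * Real.pi)
        linarith
      refine (sum_le_sum this).trans ?_
      simp
    calc 1 / (L : ℝ) * ‖∑ j ∈ range L, (ex (j * β) - 1)‖ ≤ 1 / (L : ℝ) * (L * (2 * Real.pi * L * |β|)) := by
          apply mul_le_mul_of_nonneg_left h2 (by positivity)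
      _ = 2 * Real.pi * L * |β| := by field_simp

end Pool.Agent.Helper39.PB
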